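import Pool.Agent.Y875.UE.Stm

set_option autoImplicit false

/-!
Project UE, job LEV: existence of level data.
-/

namespace Pool.Agent.Y378.UE

open Pool.Agent.Y875.UE

lemma step {q κ m0 : ℕ} (hκ : 3 ≤ κ) (hm0 : Odd m0) (h0 : q ^ 2 = 2 ^ κ * m0 + 1) (i : ℕ) :
    ∃ m : ℕ, Odd m ∧ q ^ 2 ^ (i + 1) = 2 ^ (κ + i) * m + 1 := by
  induction i with
  | zero => exact ⟨m0, hm0, by simpa using h0⟩
  | succ i ih =>
    obtain ⟨m, hm, h⟩ := ih
    refine ⟨2 ^ (κ + i - 1) * m ^ 2 + m, ?_, ?_⟩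
    · apply Even.add_odd _ hm
      apply Even.mul_right
      have : κ + i - 1 = (κ + i - 2) + 1 := by omega
      rw [this, pow_succ]
      exact even_two.mul_left _
    · have h1 : q ^ 2 ^ (i + 1 + 1) = (q ^ 2 ^ (i + 1)) ^ 2 := by
        rw [← pow_mul]
        congr 1
      rw [h1, h]
      have h2 : κ + (i + 1) = (κ + i) + 1 := by ring
      have h3 : (2 : ℕ) ^ (κ + i) = 2 * 2 ^ (κ + i - 1) := by
        rw [← pow_succ']
        congr 1
        omega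
      rw [h2, pow_succ 2 (κ + i)]
      generalize (2 : ℕ) ^ (κ + i) = Y at h3 ⊢
      generalize (2 : ℕ) ^ (κ + i - 1) = X at h3 ⊢
      rw [h3]
      ring

lemma not_dvd_of {q k s m : ℕ} (hm : Odd m) (hs : s < k) (h : q = 2 ^ s * m + 1) :
    ((q : ℕ) : ZMod (2 ^ k)) ≠ 1 := by
  intro h1
  rw [h, Nat.cast_add, Nat.cast_one, add_eq_right, ZMod.natCast_eq_zero_iff] at h1
  have h2 : 2 ^ (s + 1) ∣ 2 ^ s * m := (pow_dvd_pow 2 (by omega)).trans h1
  rw [pow_succ] at h2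
  have h3 : 2 ∣ m := Nat.dvd_of_mul_dvd_mul_left (by positivity) h2
  rcases hm with ⟨r, hr⟩
  omega

theorem t : S_LEV := by
  intro q hq hodd
  have hq2 : 2 < q := by
    have := hq.two_le
    rcases hodd with ⟨r, hr⟩
    omega
  obtain ⟨e, u, hu, he⟩ := Nat.exists_eq_two_pow_mul_odd (n := q - 1) (by omega)
  obtain ⟨κ, m0, hm0, hκ⟩ := Nat.exists_eq_two_pow_mul_odd (n := q ^ 2 - 1) (by
    have : 2 ^ 2 ≤ q ^ 2 := Nat.pow_le_pow_left (by omega) 2
    omega)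
  have hqe : q = 2 ^ e * u + 1 := by omega
  have hqκ : q ^ 2 = 2 ^ κ * m0 + 1 := by
    have : 2 ^ 2 ≤ q ^ 2 := Nat.pow_le_pow_left (by omega) 2
    omega
  have he1 : 1 ≤ e := by
    by_contra hcon
    have : e = 0 := by omega
    rw [this, pow_zero, one_mul] at hqe
    rcases hodd with ⟨r, hr⟩
    rcases hu with ⟨r', hr'⟩
    omega
  -- κ ≥ 3
  have hκ3 : 3 ≤ κ := by
    obtain ⟨r, hr⟩ := hodd
    have h8 : 2 ^ 3 ∣ 2 ^ κ * m0 := by
      have h1 : 2 ^ κ * m0 = 4 * (r * (r + 1)) := by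
        have : q ^ 2 = 4 * (r * (r + 1)) + 1 := by rw [hr]; ring
        omega
      rw [h1]
      have h2 : 2 ∣ r * (r + 1) := (Nat.even_mul_succ_self r).two_dvd
      obtain ⟨s, hs⟩ := h2
      exact ⟨s, by rw [hs]; ring⟩
    have hcop : Nat.Coprime (2 ^ 3) m0 := Nat.Coprime.pow_left 3 (Nat.coprime_two_left.2 hm0)
    have h3 : 2 ^ 3 ∣ 2 ^ κ := hcop.dvd_of_dvd_mul_right h8
    exact (Nat.pow_dvd_pow_iff_le_right (by norm_num)).1 h3
  -- e < κ
  have heκ : e < κ := by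
    have h1 : 2 ^ κ * m0 = 2 ^ (e + 1) * (u * (2 ^ (e - 1) * u + 1)) := by
      have h2 : q ^ 2 = 2 ^ (e + 1) * (u * (2 ^ (e - 1) * u + 1)) + 1 := by
        have h3 : (2 : ℕ) ^ e = 2 * 2 ^ (e - 1) := by
          rw [← pow_succ']; congr 1; omega
        rw [hqe, pow_succ 2 e]
        generalize (2 : ℕ) ^ e = Y at h3 ⊢
        generalize (2 : ℕ) ^ (e - 1) = X at h3 ⊢
        rw [h3]
        ring
      omega
    have hcop : Nat.Coprime (2 ^ (e + 1)) m0 := Nat.Coprime.pow_left _ (Nat.coprime_two_left.2 hm0)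
    have h3 : 2 ^ (e + 1) ∣ 2 ^ κ := hcop.dvd_of_dvd_mul_right ⟨_, h1⟩
    exact (Nat.pow_dvd_pow_iff_le_right (by norm_num)).1 h3
  refine ⟨e, u, κ, hu, he1, hqe, fun k hk => ?_⟩
  obtain ⟨i, hi⟩ : ∃ i, k = κ + i := ⟨k - κ, by omega⟩
  obtain ⟨M, hM, hcard⟩ := step hκ3 hm0 hqκ i
  rw [← hi] at hcard
  refine ⟨2 ^ (i + 1), M, hq, hodd, hu, hM, hqe, he1, by omega, by omega, hcard, ?_⟩
  have : Fact (Nat.Prime 2) := ⟨Nat.prime_two⟩
  apply orderOf_eq_prime_pow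
  · cases i with
    | zero =>
      rw [pow_zero, pow_one]
      exact not_dvd_of hu (by omega) hqe
    | succ j =>
      obtain ⟨m, hm, h⟩ := step hκ3 hm0 hqκ j
      rw [← Nat.cast_pow]
      exact not_dvd_of hm (by omega) h
  · rw [← Nat.cast_pow, hcard, Nat.cast_add, Nat.cast_mul, Nat.cast_one, ZMod.natCast_self, zero_mul,
      zero_add]

end Pool.Agent.Y378.UE
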